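import Pool.Agent.X20.Amp

/-!
# The intervals `(α n ^ c, α n ^ c + H n]` contain the right number of primes on average

For every `c > 1`, all `α` outside a set of Hausdorff dimension less than one and ALL nondecreasing lengths
`H n`, arbitrarily short (`H n ≥ ψ n` for any `ψ → ∞`), with positive proportions for `H n ≥ n ^ ε`.
From Mathlib: `dimH E`: the Hausdorff dimension; `Finset.Icc 1 N`: the integers from `1` to `N`; `⌊x⌋₊`: the
integer part; `MonotoneOn H (Set.Icc 1 N)`: `H 1 ≤ H 2 ≤ … ≤ H N`.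
-/

set_option autoImplicit false

namespace Pool.Agent.Results.MP_c853c5_nt.MeanAlongDilatedPowers

open Filter Finset

/-- the number of primes `p` with `x < p ≤ x + H` -/
noncomputable def primesIn (x H : ℝ) : ℕ := ((Ioc ⌊x⌋₊ ⌊x + H⌋₊).filter Nat.Prime).card

/-- the number of primes in `(x, x + H]` divided by the expected number `H / log x` -/
noncomputable def density (x H : ℝ) : ℝ := primesIn x H * Real.log x / H

/-- For every real `c > 1` there is a set `E` of real numbers of Hausdorff dimension less than one such that for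
every real `α > 0` outside `E`:

* for every function `ψ` tending to infinity and every `δ > 0`, for all large `N` and ALL nondecreasing sequences
  of lengths `H 1 ≤ … ≤ H N` with `max 1 (ψ n) ≤ H n ≤ α N ^ c`, the mean value over `n ≤ N` of
  `density (α n ^ c) (H n)` differs from `1` by at most `δ`;
* for all `ε, δ > 0` there is `b > 0` such that for all large `N` and ALL nondecreasing sequences of lengths with
  `n ^ ε ≤ H n ≤ α N ^ c`, at least `b N` of the `n ≤ N` have `1 - δ ≤ density (α n ^ c) (H n)` and at least `b N`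
  of them have `density (α n ^ c) (H n) ≤ 1 + δ`. -/
theorem result (c : ℝ) (hc : 1 < c) : ∃ E : Set ℝ, dimH E < 1 ∧ ∀ α : ℝ, 0 < α → α ∉ E →
    (∀ ψ : ℕ → ℝ, Tendsto ψ atTop atTop → ∀ δ : ℝ, 0 < δ → ∃ N₀ : ℕ, ∀ N : ℕ, N₀ ≤ N →
      ∀ H : ℕ → ℝ, MonotoneOn H (Set.Icc 1 N) →
        (∀ n : ℕ, 1 ≤ n → n ≤ N → 1 ≤ H n ∧ ψ n ≤ H n ∧ H n ≤ α * (N : ℝ) ^ c) →
        |(∑ n ∈ Icc 1 N, density (α * (n : ℝ) ^ c) (H n)) / N - 1| ≤ δ) ∧
    ∀ ε δ : ℝ, 0 < ε → 0 < δ → ∃ b : ℝ, 0 < b ∧ ∃ N₀ : ℕ, ∀ N : ℕ, N₀ ≤ N →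
      ∀ H : ℕ → ℝ, MonotoneOn H (Set.Icc 1 N) →
        (∀ n : ℕ, 1 ≤ n → n ≤ N → (n : ℝ) ^ ε ≤ H n ∧ H n ≤ α * (N : ℝ) ^ c) →
        b * N ≤ (((Icc 1 N).filter (fun n : ℕ => 1 - δ ≤ density (α * (n : ℝ) ^ c) (H n))).card : ℝ) ∧
        b * N ≤ (((Icc 1 N).filter (fun n : ℕ => density (α * (n : ℝ) ^ c) (H n) ≤ 1 + δ)).card : ℝ) := by
  obtain ⟨E, hE, h⟩ := Pool.Agent.X20.Amp.amp c hc
  refine ⟨E, hE, fun α hα hαE => ⟨?_, ?_⟩⟩
  · intro ψ hψ δ hδ
    obtain ⟨N₀, h1⟩ := h α hα hαE ψ hψ δ hδ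
    refine ⟨max N₀ 1, fun N hN H hmono hH => ?_⟩
    have hN1 : 1 ≤ N := (le_max_right _ _).trans hN
    have hNpos : (0 : ℝ) < N := by exact_mod_cast hN1
    have h2 := h1 N ((le_max_left _ _).trans hN) H hmono hH
    rw [sum_sub_distrib, sum_const, Nat.card_Icc, Nat.add_sub_cancel, nsmul_eq_mul, mul_one] at h2
    have e : ∑ n ∈ Icc 1 N, density (α * (n : ℝ) ^ c) (H n) =
        ∑ n ∈ Icc 1 N, Pool.Agent.Y854.PS.ff (α * (n : ℝ) ^ c) (H n) := rfl
    rw [e, div_sub_one hNpos.ne', abs_div, abs_of_pos hNpos, div_le_iff₀ hNpos]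
    exact h2
  · intro ε δ hε hδ
    obtain ⟨b, hb, N₀, h1⟩ := Pool.Agent.X20.Amp.amp_prop c α ε (min δ 1) hc hα hε (lt_min hδ one_pos)
      (min_le_right _ _) (h α hα hαE)
    refine ⟨b, hb, N₀, fun N hN H hmono hH => ?_⟩
    obtain ⟨h2, h3⟩ := h1 N hN H hmono hH
    have e : ∀ n : ℕ, density (α * (n : ℝ) ^ c) (H n) = Pool.Agent.Y854.PS.ff (α * (n : ℝ) ^ c) (H n) := fun _ => rfl
    constructor
    · refine h2.trans (Nat.cast_le.2 (card_le_card ?_))
      intro n hn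
      rw [mem_filter] at hn ⊢
      rw [e]
      exact ⟨hn.1, by linarith [hn.2, min_le_left δ 1]⟩
    · refine h3.trans (Nat.cast_le.2 (card_le_card ?_))
      intro n hn
      rw [mem_filter] at hn ⊢
      rw [e]
      exact ⟨hn.1, by linarith [hn.2, min_le_left δ 1]⟩

end Pool.Agent.Results.MP_c853c5_nt.MeanAlongDilatedPowers
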