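import Pool.Agent.X108.Pat.Main
import Pool.Agent.X108.Pat.AE

/-!
# Primes just below the multiples of almost every real number: the right order at all scales at once

How long are the shortest intervals just below `k x` that contain primes?  For almost all real `x`, in the
strong sense that the exceptional `x ∈ [Y, 2Y]` have measure at most `Y ^ (1 - κ)`, a positive proportion of the
multiples `k x`, `k ≤ Y ^ θ` (`θ > 0` is arbitrarily small), have between `(1 - δ) H / log k x` and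
`L H / log k x` primes in `(k x - H, k x)`, for ALL `H` between `K log k x` and `k x` at the same time.

By the lemma of Borel and Cantelli (`ae_of`), for every sequence `q j` which grows faster than every power of
`j` (for instance `q j = 2 ^ j`), the same holds for almost every `α ∈ [1, 2]` and the multiples `k q_j α`,
`k ≤ q_j ^ θ`, for all large `j`.
-/

set_option autoImplicit false

open MeasureTheory Filter Topology

namespace Pool.Agent.Results.MP_c853c5_nt.MultiplesOfAlmostEveryNumber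

/-- the number of the primes in the open interval `(y - H, y)` -/
noncomputable def below (y H : ℝ) : ℕ := {p : ℕ | p.Prime ∧ y - H < p ∧ (p : ℝ) < y}.ncard

/-- at all scales `H` from `K log y` to `y`, the number of the primes in `(y - H, y)` is between
`(1 - δ) H / log y` and `L H / log y` -/
def Regular (δ K L : ℝ) (y : ℝ) : Prop := ∀ H : ℝ, K * Real.log y ≤ H → H ≤ y →
  (1 - δ) * (H / Real.log y) ≤ below y H ∧ (below y H : ℝ) ≤ L * (H / Real.log y)

/-- most reals: for all `x` in `[Y, 2Y]` outside a set of measure `Y ^ (1 - κ)` at least `c Y ^ θ` of the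
multiples `k x`, `k ≤ Y ^ θ`, have the property `R` -/
def MostReals (θ c κ : ℝ) (R : ℝ → Prop) : Prop :=
  ∃ Y₀ : ℝ, ∀ Y : ℝ, Y₀ ≤ Y → ∃ E : Set ℝ, MeasurableSet E ∧ volume E ≤ ENNReal.ofReal (Y ^ (1 - κ)) ∧
    ∀ x : ℝ, Y ≤ x → x ≤ 2 * Y → x ∉ E → c * Y ^ θ ≤ ({k : ℕ | (k : ℝ) ≤ Y ^ θ ∧ R (k * x)}.ncard : ℝ)

/-- almost every real: for every sequence `q` growing faster than all powers of `j`, for almost every
`α ∈ [1, 2]` and all large `j` at least `c q_j ^ θ` of the multiples `k q_j α`, `k ≤ q_j ^ θ`, have the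
property `R` -/
def AlmostEvery (θ c : ℝ) (R : ℝ → Prop) : Prop :=
  ∀ q : ℕ → ℝ, (∀ A : ℕ, ∀ᶠ j : ℕ in atTop, (j : ℝ) ^ A ≤ q j) →
    ∀ᵐ α : ℝ, 1 ≤ α → α ≤ 2 → ∀ᶠ j : ℕ in atTop,
      c * (q j) ^ θ ≤ ({k : ℕ | (k : ℝ) ≤ (q j) ^ θ ∧ R (k * (q j * α))}.ncard : ℝ)

lemma regular_of {δ K L y : ℝ} (h : Pool.Agent.H622R3.SP.AS δ K L y) : Regular δ K L y := by
  intro H h1 h2
  obtain ⟨h3, h4⟩ := h H h1 h2
  rw [mul_div_assoc] at h3 h4
  exact ⟨h3, h4⟩

theorem result (θ δ : ℝ) (hθ : 0 < θ) (hθ1 : θ < 1) (hδ : 0 < δ) (hδ1 : δ < 1) :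
    ∃ K L c κ : ℝ, 0 < K ∧ 0 < L ∧ 0 < c ∧ 0 < κ ∧
      MostReals θ c κ (Regular δ K L) ∧ AlmostEvery θ c (Regular δ K L) := by
  obtain ⟨K, L, c, κ, hK, hL, hc, hκ, Y₀, hY⟩ := Pool.Agent.X108.Pat.mult_AS θ δ hθ hθ1 hδ hδ1
  have hmost : MostReals θ c κ (Regular δ K L) := by
    refine ⟨Y₀, fun Y h1 => ?_⟩
    obtain ⟨E, hE1, hE2, hE3⟩ := hY Y h1
    refine ⟨E, hE1, hE2, fun x h2 h3 h4 => (hE3 x h2 h3 h4).trans ?_⟩
    have hfin : {k : ℕ | (k : ℝ) ≤ Y ^ θ ∧ Regular δ K L (k * x)}.Finite :=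
      (Set.finite_Iic ⌊Y ^ θ⌋₊).subset fun k hk => Nat.le_floor hk.1
    refine Nat.cast_le.2 (Set.ncard_le_ncard ?_ hfin)
    rintro k ⟨hk, h5⟩
    exact ⟨hk, regular_of h5⟩
  exact ⟨K, L, c, κ, hK, hL, hc, hκ, hmost, fun q hq => Pool.Agent.X108.Pat.ae_of hκ hmost q hq⟩

end Pool.Agent.Results.MP_c853c5_nt.MultiplesOfAlmostEveryNumber
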