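import Pool.Agent.X29.SM.Main

/-!
# Record prime gaps along every smooth curve, uniformly in the curve

Let `F(M) = log M (log₂ M)² log₄ M / (log₃ M)²` (iterated natural logarithms), the order of the largest known prime
gaps.  Let `k ≥ 0` be an integer and `0 < ε`.  There is `κ > 0` such that for all large `M` and EVERY real function `f`
on an interval `[A, A + M]` whose derivative of order `k + 1` is monotone and satisfies
`M ^ (ε - (k + 1)) ≤ |f^(k + 1)| ≤ M ^ (-ε)`, some integer `0 ≤ n ≤ M` is such that no prime lies within `κ F(M)` of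
`f(A + n)`.  The constants `κ` and `M₀` depend on `k` and `ε` only: nothing is assumed about the size of `f` or of its
lower derivatives, any real polynomial of degree at most `k` (with coefficients of any size) may be added to `f`, and
the whole range of sizes of `f^(k + 1)` between those of a polynomial of degree `k` and of a function with
derivative of order `k + 1` near `1` is covered.  The starting results `MP_028722_nt.NonIntegralOrder` and
`LogPowerSequences` are about one fixed function; there `f^(k + 1)` is between `t ^ (-b1)` and `t ^ (-b2)` with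
`b1 < b2 + 1`, and the size of `f` is a hypothesis.

Proof.  The exponential sums `∑ e(h f(A + n) / q)` are bounded by `k` Weyl - van der Corput differencing steps with
shifts up to a power `M ^ h` and the mean over the shifts of the inequality of Kusmin and Landau (helper719, helper915;
uniformity and time reversal: helper668); the covering sieve of the starting library in the form
`TH915.PW.crit_scaled` does the rest.  This needs `b1 < b2 + 1` and a lower bound for `f`.  New here: `|f|` is at least
`M ^ (ε / 2)` on a proportion `3 ^ (-(k + 1))` of the interval (iterated thirds), a pigeonhole over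
`8 (k + 1)` parts of it gives an interval of length `M / C` on which `|f^(k + 1)|` changes by a factor at most
`M ^ (1 / 8)`, and finitely many pairs `(b1, b2)` suffice for all positions of its size.
-/

set_option autoImplicit false

namespace Pool.Agent.Results.MP_c853c5_nt.RecordGapsAlongSmoothCurves

/-- `F(M) = log M (log₂ M)² log₄ M / (log₃ M)²` -/
noncomputable def F (M : ℝ) : ℝ :=
  Real.log M * (Real.log (Real.log M)) ^ 2 * Real.log (Real.log (Real.log (Real.log M))) /
    (Real.log (Real.log (Real.log M))) ^ 2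

/-- `φ 0 = f` is a function on `[A, A + M]` with the derivatives `φ 1, …, φ (k + 2)`; the derivative `φ (k + 1)` of
order `k + 1` is between `M ^ (ε - (k + 1))` and `M ^ (-ε)` in absolute value and monotone -/
structure Curve (k : ℕ) (ε A M : ℝ) (φ : ℕ → ℝ → ℝ) : Prop where
  der : ∀ m ≤ k + 1, ∀ t ∈ Set.Icc A (A + M), HasDerivAt (φ m) (φ (m + 1) t) t
  lower : ∀ t ∈ Set.Icc A (A + M), M ^ (ε - (k + 1)) ≤ |φ (k + 1) t|
  upper : ∀ t ∈ Set.Icc A (A + M), |φ (k + 1) t| ≤ M ^ (-ε)
  monotone : (∀ t ∈ Set.Icc A (A + M), 0 ≤ φ (k + 2) t) ∨ (∀ t ∈ Set.Icc A (A + M), φ (k + 2) t ≤ 0)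

/-- For all `k` and `ε > 0` there are `κ > 0` and `M₀` such that for all `M ≥ M₀`, all `A` and every function `φ 0`
with `Curve k ε A M φ` there is an integer `0 ≤ n ≤ M` such that no prime is within `κ F(M)` of `φ 0 (A + n)`. -/
theorem result (k : ℕ) (ε : ℝ) (hε : 0 < ε) : ∃ κ : ℝ, 0 < κ ∧ ∃ M₀ : ℝ, ∀ M : ℝ, M₀ ≤ M →
    ∀ (A : ℝ) (φ : ℕ → ℝ → ℝ), Curve k ε A M φ →
      ∃ n : ℕ, (n : ℝ) ≤ M ∧ ∀ q : ℕ, q.Prime → κ * F M < |(q : ℝ) - φ 0 (A + n)| := by
  obtain ⟨κ, hκ, M₀, h⟩ := Pool.Agent.X29.SM.universal k ε hε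
  refine ⟨κ, hκ, max M₀ 1, fun M hM A φ hc => ?_⟩
  have hM1 : 1 ≤ M := (le_max_right _ _).trans hM
  have hM0 : 0 < M := by linarith
  have hlo0 : 0 < M ^ (ε - (k + 1)) := by positivity
  have hA : A ∈ Set.Icc A (A + M) := ⟨le_rfl, by linarith⟩
  have hcont : ContinuousOn (φ (k + 1)) (Set.Icc A (A + M)) := fun t ht =>
    (hc.der (k + 1) le_rfl t ht).continuousAt.continuousWithinAt
  -- the sign
  obtain ⟨s, hs, hsg⟩ : ∃ s : ℝ, (s = 1 ∨ s = -1) ∧ ∀ t ∈ Set.Icc A (A + M), s * φ (k + 1) t = |φ (k + 1) t| := by
    rcases lt_trichotomy (φ (k + 1) A) 0 with h0 | h0 | h0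
    · refine ⟨-1, Or.inr rfl, fun t ht => ?_⟩
      have h1 : φ (k + 1) t ≤ 0 := by
        by_contra h2
        rw [not_le] at h2
        obtain ⟨u, hu, hu0⟩ := isPreconnected_Icc.intermediate_value hA ht hcont ⟨h0.le, h2.le⟩
        have h3 := hc.lower u hu
        rw [hu0, abs_zero] at h3
        linarith
      rw [abs_of_nonpos h1]
      ring
    · have h3 := hc.lower A hA
      rw [h0, abs_zero] at h3
      linarith
    · refine ⟨1, Or.inl rfl, fun t ht => ?_⟩
      have h1 : 0 ≤ φ (k + 1) t := by
        by_contra h2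
        rw [not_le] at h2
        obtain ⟨u, hu, hu0⟩ := isPreconnected_Icc.intermediate_value ht hA hcont ⟨h2.le, h0.le⟩
        have h3 := hc.lower u hu
        rw [hu0, abs_zero] at h3
        linarith
      rw [abs_of_nonneg h1]
      ring
  obtain ⟨s', hs', hm⟩ : ∃ s' : ℝ, (s' = 1 ∨ s' = -1) ∧ ∀ t ∈ Set.Icc A (A + M), 0 ≤ s' * φ (k + 2) t := by
    rcases hc.monotone with h1 | h1
    · exact ⟨1, Or.inl rfl, fun t ht => by rw [one_mul]; exact h1 t ht⟩
    · exact ⟨-1, Or.inr rfl, fun t ht => by have := h1 t ht; linarith⟩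
  exact h M ((le_max_left _ _).trans hM) A s s' φ hs hs'
    ⟨hc.der, fun t ht => by rw [hsg t ht]; exact hc.lower t ht, fun t ht => by
      rw [hsg t ht]; exact hc.upper t ht, hm⟩

end Pool.Agent.Results.MP_c853c5_nt.RecordGapsAlongSmoothCurves
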