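import Pool.Agent.X29.SW.Main

/-!
# Sieve weights see the right number of primes in intervals of length `C log X log log X`

Large gaps between primes (and primes in short intervals) are sought with nonnegative sieve weights
`w(n) = ∑_{d ≤ Q} c_d(n mod d)` on `X < n ≤ 2X`.  We show that no such weight of level `Q² ≤ X / (log X)^B`, with
coefficients and mass of the usual size (powers of `log X`), can distinguish the intervals `(n + H, n + H + U]` of
length `U ≥ C log X log log X`: on average with respect to `w` they contain `(1 + O(ε)) U / log X` primes, uniformly in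
the weight and in the position `H ≤ X - U`.  So the method of weights of level `X^(1/2)` and bounded (logarithmic) size
neither gives prime-free intervals of that length nor intervals with too many primes; all larger gaps that are known
come from weights which are very large on very few residue classes.

Proof.  The mean over `n` of `w(n) 1_{n + h prime}` is, by the theorem of Bombieri and Vinogradov, `w`'s singular series
at `h` (helper829, `Pool.Agent.Y829.RP`).  The sum of the singular series over `H < h ≤ H + U` is a mean of the number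
of survivors of the sieve by the primes `p ≤ Q` in the interval, and a weight of logarithmic size cannot see a set of
density `(log X)^(-A)` (helper829, `Pool.Agent.Y829.RS`).  New here: for the primes `p > U` the exponential moments of
the number `S` of survivors are bounded by those of a sum of independent variables, `E u^S ≤ (1 - (1 - u) V)^N` for all
`u > 0` (`Pool.Agent.X29.SW.moments`, one prime at a time), so the number of survivors is concentrated as soon as its
mean is a large multiple of `log log X`.  The starting library has this for intervals of length `log X (log log X)^3`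
and `H = 0` (`Pool.Agent.Y829.RS.main_all`).
-/

set_option autoImplicit false

open Finset

namespace Pool.Agent.Results.MP_c853c5_nt.SieveWeightsSeePrimes

/-- `w(n) = ∑_{d ≤ Q} c_d(n mod d)` -/
noncomputable def weight (Q : ℕ) (c : ℕ → ℕ → ℝ) (n : ℕ) : ℝ := ∑ d ∈ Icc 1 Q, c d (n % d)

/-- `s(d) = ∑_{a mod d} |c_d(a)|` -/
noncomputable def size (c : ℕ → ℕ → ℝ) (d : ℕ) : ℝ := ∑ a ∈ range d, |c d a|

/-- the mass of the weight on `(X, 2X]` -/
noncomputable def mass (X Q : ℕ) (c : ℕ → ℕ → ℝ) : ℝ := ∑ n ∈ Ioc X (2 * X), weight Q c n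

/-- the number of primes in `(m, m + U]` -/
def primesIn (m U : ℕ) : ℕ := ((Ioc m (m + U)).filter Nat.Prime).card

/-- the hypotheses on the weight: level `Q² (log X)^B ≤ X`, nonnegative, `∑_{d ≤ Q} s(d)² / d ≤ (log X)^K` and mass at
least `X / (log X)^K` -/
def Good (K B X Q : ℕ) (c : ℕ → ℕ → ℝ) : Prop :=
  1 ≤ Q ∧ (Q : ℝ) ^ 2 * Real.log X ^ B ≤ X ∧ (∀ n, 0 ≤ weight Q c n) ∧
    ∑ d ∈ Icc 1 Q, size c d ^ 2 / d ≤ Real.log X ^ K ∧ X / Real.log X ^ K ≤ mass X Q c

/-- Let `K` be a natural number and `ε > 0`. There are `C ≥ 1`, `B` and `X₀` such that for all `X ≥ X₀`, all `H`, `U`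
with `C log X log log X ≤ U` and `H + U ≤ X`, and every `Good` weight `w`, the mean with respect to `w` over
`X < n ≤ 2X` of the number of primes in `(n + H, n + H + U]` is `U / log X`, up to a relative error at most `ε`. -/
theorem result : ∀ (K : ℕ) (ε : ℝ), 0 < ε → ∃ C : ℝ, 1 ≤ C ∧ ∃ B X₀ : ℕ, ∀ X H U Q : ℕ, X₀ ≤ X →
    C * (Real.log X * Real.log (Real.log X)) ≤ U → H + U ≤ X → ∀ c : ℕ → ℕ → ℝ, Good K B X Q c →
      |∑ n ∈ Ioc X (2 * X), weight Q c n * primesIn (n + H) U - U / Real.log X * mass X Q c| ≤
        ε * (U / Real.log X * mass X Q c) := by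
  intro K ε hε
  obtain ⟨b, hb⟩ := exists_pow_lt_of_lt_one hε (show (1 / 2 : ℝ) < 1 by norm_num)
  obtain ⟨C, hC, B, X₀, h⟩ := Pool.Agent.X29.SW.main_all K b
  refine ⟨C, hC, B, X₀, ?_⟩
  intro X H U Q hX hU hHU c hc
  obtain ⟨g1, g2, g3, g4, g5⟩ := hc
  have h1 := h X H U Q hX hU hHU g1 g2 c g3 g4 g5
  refine h1.trans ?_
  apply mul_le_mul_of_nonneg_right hb.le
  have h2 : 0 ≤ mass X Q c := sum_nonneg fun n _ => g3 n
  have h3 : 0 ≤ Real.log X := Real.log_natCast_nonneg X
  have h4 : 0 ≤ (U : ℝ) / Real.log X * mass X Q c := by positivity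
  exact h4

end Pool.Agent.Results.MP_c853c5_nt.SieveWeightsSeePrimes
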